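import Mathlib
import Pool.Agent.Helper758.GZLib

set_option autoImplicit false

namespace Pool.Agent.Results.MP_c20521_an.BelowN

open Filter Topology Set

noncomputable section

/-- a power series `∑ a_k z^(e_k)` with positive coefficients, converging in the whole plane -/
structure Lac where
  e : ℕ → ℕ
  a : ℕ → ℝ
  e_mono : StrictMono e
  a_pos : ∀ k, 0 < a k
  entire : ∀ z : ℂ, Summable fun k => (a k : ℂ) * z ^ e k

namespace Lac
def f (F : Lac) (z : ℂ) : ℂ := ∑' k, (F.a k : ℂ) * z ^ F.e k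
def zeros (F : Lac) : Set ℂ := {z | F.f z = 0}
/-- `A(f)`, the upper limit of the gap lengths -/
def A (F : Lac) : ℕ∞ := limsup (fun k => ((F.e (k + 1) - F.e k : ℕ) : ℕ∞)) atTop
/-- `δ(f)`, the lower limit of the moduli of the arguments of the zeros -/
def δ (F : Lac) : ℝ := liminf (fun z : F.zeros => |Complex.arg (z : ℂ)|) cofinite
/-- maximum modulus -/
def M (F : Lac) (r : ℝ) : ℝ := sSup ((fun z : ℂ => ‖F.f z‖) '' Metric.sphere 0 r)
/-- order -/
def order (F : Lac) : EReal :=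
  limsup (fun r : ℝ => ((Real.log (Real.log (F.M r)) / Real.log r : ℝ) : EReal)) atTop
end Lac

/-- the class `G_ρ(n)` -/
def G (n : ℕ) (ρ : EReal) : Set Lac := {F | F.zeros.Infinite ∧ F.A = n ∧ F.order = ρ}

/-- infinitely many gaps of length exactly `n` -/
theorem Lac.gaps_infinite (F : Lac) (n : ℕ) (hn : 2 ≤ n) (hA : F.A = n) :
    {k : ℕ | F.e (k + 1) = F.e k + n}.Infinite := by
  rw [← Nat.frequently_atTop_iff_infinite]
  unfold Lac.A at hA
  have h1 : (((n - 1 : ℕ) : ℕ∞)) < limsup (fun k => ((F.e (k + 1) - F.e k : ℕ) : ℕ∞)) atTop := by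
    rw [hA]
    exact_mod_cast (by omega : n - 1 < n)
  have h2 : limsup (fun k => ((F.e (k + 1) - F.e k : ℕ) : ℕ∞)) atTop < ((n + 1 : ℕ) : ℕ∞) := by
    rw [hA]
    exact_mod_cast (by omega : n < n + 1)
  have h3 := frequently_lt_of_lt_limsup (by isBoundedDefault) h1
  have h4 := eventually_lt_of_limsup_lt h2
  refine (h3.and_eventually h4).mono ?_
  intro k hk
  obtain ⟨hk1, hk2⟩ := hk
  have hk1' : n - 1 < F.e (k + 1) - F.e k := by exact_mod_cast hk1
  have hk2' : F.e (k + 1) - F.e k < n + 1 := by exact_mod_cast hk2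
  have hlt := F.e_mono (Nat.lt_succ_self k)
  show F.e (k + 1) = F.e k + n
  have : F.e k < F.e (k + 1) := hlt
  omega

theorem Lac.norm_f_le (F : Lac) (w : ℂ) (r : ℝ) (hw : ‖w‖ = r) :
    ‖F.f w‖ ≤ ∑' k, F.a k * r ^ F.e k := by
  have hs : Summable (fun k => ‖(F.a k : ℂ) * w ^ F.e k‖) := summable_norm_iff.2 (F.entire w)
  unfold Lac.f
  refine (norm_tsum_le_tsum_norm hs).trans (le_of_eq ?_)
  congr 1
  funext k
  rw [norm_mul, norm_pow, hw, Complex.norm_real, Real.norm_of_nonneg (F.a_pos k).le]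

theorem Lac.norm_f_le_M (F : Lac) (z : ℂ) : ‖F.f z‖ ≤ F.M ‖z‖ := by
  unfold Lac.M
  apply le_csSup
  · refine ⟨∑' k, F.a k * ‖z‖ ^ F.e k, ?_⟩
    rintro _ ⟨w, hw, rfl⟩
    exact F.norm_f_le w ‖z‖ (by simpa using hw)
  · exact ⟨z, by simp, rfl⟩

/-- growth bound from the order -/
theorem Lac.growth (F : Lac) (ρ t : ℝ) (ht : 0 < t) (h1 : ρ < t) (hρ : F.order = (ρ : EReal)) :
    ∃ σ : ℝ, 0 < σ ∧ σ < t ∧ ∃ r0 : ℝ, 1 ≤ r0 ∧ ∀ z : ℂ, r0 ≤ ‖z‖ →
      ‖F.f z‖ ≤ F.a 0 * Real.exp (‖z‖ ^ σ) := by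
  set m := max ρ 0 with hm
  have hm1 : m < t := max_lt h1 ht
  have hm0 : 0 ≤ m := le_max_right _ _
  have hmρ : ρ ≤ m := le_max_left _ _
  set s := m + (t - m) / 3 with hs
  set σ := m + 2 * (t - m) / 3 with hσ
  have hsρ : ρ < s := by rw [hs]; linarith
  have hs0 : 0 ≤ s := by rw [hs]; linarith
  have hsσ : 0 < σ - s := by rw [hs, hσ]; linarith
  have hlim : limsup (fun r : ℝ => ((Real.log (Real.log (F.M r)) / Real.log r : ℝ) : EReal)) atTop
      < ((s : ℝ) : EReal) := by
    have : F.order < ((s : ℝ) : EReal) := by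
      rw [hρ]; exact_mod_cast hsρ
    exact this
  have h2 := eventually_lt_of_limsup_lt hlim
  have ht : Tendsto (fun r : ℝ => r ^ (σ - s)) atTop atTop := tendsto_rpow_atTop hsσ
  have h3 := ht.eventually_ge_atTop (1 + |Real.log (F.a 0)|)
  have h4 := (h2.and (h3.and (eventually_ge_atTop (2:ℝ))))
  obtain ⟨r0, hr0⟩ := eventually_atTop.1 h4
  refine ⟨σ, by rw [hσ]; linarith, by rw [hσ]; linarith, max r0 1, le_max_right _ _, ?_⟩
  intro z hz
  obtain ⟨ha, hb, hc⟩ := hr0 ‖z‖ ((le_max_left _ _).trans hz)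
  set r := ‖z‖ with hr
  have hrpos : 0 < r := by linarith
  have hr1 : 1 ≤ r := by linarith
  have hlogr : 0 < Real.log r := Real.log_pos (by linarith)
  have ha' : Real.log (Real.log (F.M r)) / Real.log r < s := by exact_mod_cast ha
  rw [div_lt_iff₀ hlogr] at ha'
  have hrs : 0 < r ^ s := Real.rpow_pos_of_pos hrpos s
  have hlogM : Real.log (F.M r) ≤ r ^ s := by
    by_cases h0 : Real.log (F.M r) ≤ 0
    · linarith
    · push Not at h0
      have h5 : Real.log (r ^ s) = s * Real.log r := Real.log_rpow hrpos s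
      rw [← h5] at ha'
      exact ((Real.log_lt_log_iff h0 hrs).1 ha').le
  have hM : F.M r ≤ Real.exp (r ^ s) := by
    by_cases h0 : F.M r ≤ 0
    · exact h0.trans (Real.exp_pos _).le
    · push Not at h0
      rw [← Real.exp_log h0]
      exact Real.exp_le_exp.2 hlogM
  have ha0 := F.a_pos 0
  have hfin : Real.exp (r ^ s) ≤ F.a 0 * Real.exp (r ^ σ) := by
    rw [← Real.exp_log ha0, ← Real.exp_add]
    apply Real.exp_le_exp.2
    have e1 : r ^ σ = r ^ s * r ^ (σ - s) := by
      rw [← Real.rpow_add hrpos]; congr 1; ring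
    have hrs1 : 1 ≤ r ^ s := Real.one_le_rpow hr1 hs0
    have e2 : r ^ s * (1 + |Real.log (F.a 0)|) ≤ r ^ s * r ^ (σ - s) :=
      mul_le_mul_of_nonneg_left hb hrs.le
    have e3 : |Real.log (F.a 0)| ≤ r ^ s * |Real.log (F.a 0)| :=
      le_mul_of_one_le_left (abs_nonneg _) hrs1
    have e4 := neg_abs_le (Real.log (F.a 0))
    rw [e1]
    linarith
  exact ((F.norm_f_le_M z).trans hM).trans hfin

/-- normalised coefficients -/
def Lac.c (F : Lac) (j : ℕ) : ℝ :=
  open Classical in if h : ∃ k, F.e k = F.e 0 + j then F.a h.choose / F.a 0 else 0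

/-- normalised function -/
def Lac.Fc (F : Lac) (z : ℂ) : ℂ :=
  open Classical in if z = 0 then 1 else F.f z / ((F.a 0 : ℂ) * z ^ F.e 0)

theorem Lac.e_ge (F : Lac) (k : ℕ) : F.e 0 ≤ F.e k := F.e_mono.monotone (Nat.zero_le k)

theorem Lac.c_e (F : Lac) (k : ℕ) : F.c (F.e k - F.e 0) = F.a k / F.a 0 := by
  have h : ∃ k', F.e k' = F.e 0 + (F.e k - F.e 0) := ⟨k, by have := F.e_ge k; omega⟩
  unfold Lac.c
  rw [dif_pos h]
  have h2 : h.choose = k := by
    apply F.e_mono.injective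
    have := h.choose_spec
    have h3 := F.e_ge k
    omega
  rw [h2]

theorem Lac.c_zero_of (F : Lac) (j : ℕ) (h : ¬ ∃ k, F.e k = F.e 0 + j) : F.c j = 0 := by
  unfold Lac.c
  rw [dif_neg h]

theorem Lac.c_nonneg (F : Lac) (j : ℕ) : 0 ≤ F.c j := by
  unfold Lac.c
  split_ifs with h
  · exact (div_pos (F.a_pos _) (F.a_pos _)).le
  · exact le_rfl

theorem Lac.c_hasSum (F : Lac) (z : ℂ) : HasSum (fun j => (F.c j : ℂ) * z ^ j) (F.Fc z) := by
  have hinj : Function.Injective (fun k => F.e k - F.e 0) := by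
    intro x y hxy
    have hx := F.e_ge x
    have hy := F.e_ge y
    simp only at hxy
    apply F.e_mono.injective
    omega
  have hout : ∀ x, x ∉ Set.range (fun k => F.e k - F.e 0) → (F.c x : ℂ) * z ^ x = 0 := by
    intro x hx
    rw [F.c_zero_of x]
    · simp
    · rintro ⟨k, hk⟩
      apply hx
      exact ⟨k, by show F.e k - F.e 0 = x; omega⟩
  rw [← hinj.hasSum_iff hout]
  have ha0 : (F.a 0 : ℂ) ≠ 0 := by exact_mod_cast (F.a_pos 0).ne'
  by_cases hz : z = 0
  · subst hz
    have e1 : F.Fc 0 = 1 := by unfold Lac.Fc; rw [if_pos rfl]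
    rw [e1]
    have h := hasSum_single (f := (fun j => (F.c j : ℂ) * (0:ℂ) ^ j) ∘ fun k => F.e k - F.e 0) 0
      (by
        intro k hk
        have hlt : F.e 0 < F.e k := F.e_mono (Nat.pos_of_ne_zero hk)
        simp only [Function.comp]
        rw [zero_pow (by omega), mul_zero])
    have e2 : ((fun j => (F.c j : ℂ) * (0:ℂ) ^ j) ∘ fun k => F.e k - F.e 0) 0 = 1 := by
      simp only [Function.comp]
      rw [F.c_e 0, Nat.sub_self, pow_zero, div_self (F.a_pos 0).ne']
      simp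
    rw [e2] at h
    exact h
  · have e1 : F.Fc z = F.f z / ((F.a 0 : ℂ) * z ^ F.e 0) := by unfold Lac.Fc; rw [if_neg hz]
    rw [e1]
    have h := (F.entire z).hasSum.div_const ((F.a 0 : ℂ) * z ^ F.e 0)
    have e2 : ((fun j => (F.c j : ℂ) * z ^ j) ∘ fun k => F.e k - F.e 0) =
        fun k => (F.a k : ℂ) * z ^ F.e k / ((F.a 0 : ℂ) * z ^ F.e 0) := by
      funext k
      simp only [Function.comp]
      rw [F.c_e k]
      have h3 := F.e_ge k
      have e3 : z ^ F.e k = z ^ (F.e k - F.e 0) * z ^ F.e 0 := by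
        rw [← pow_add]; congr 1; omega
      rw [e3]
      have hz0 : z ^ F.e 0 ≠ 0 := pow_ne_zero _ hz
      push_cast
      field_simp
    rw [e2]
    exact h

theorem Lac.Fc_zero (F : Lac) (z : ℂ) (h : F.Fc z = 0) : z ≠ 0 ∧ F.f z = 0 := by
  have ha0 : (F.a 0 : ℂ) ≠ 0 := by exact_mod_cast (F.a_pos 0).ne'
  by_cases hz : z = 0
  · exfalso
    subst hz
    unfold Lac.Fc at h
    rw [if_pos rfl] at h
    exact one_ne_zero h
  · refine ⟨hz, ?_⟩
    unfold Lac.Fc at h
    rw [if_neg hz, div_eq_zero_iff] at h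
    rcases h with h | h
    · exact h
    · exact absurd h (mul_ne_zero ha0 (pow_ne_zero _ hz))

theorem upper_bound (n : ℕ) (hn : 2 ≤ n) (ρ : ℝ) (h1 : ρ < n) (F : Lac)
    (hF : F ∈ G n (ρ : EReal)) : F.δ ≤ Real.pi / n := by
  obtain ⟨hinf, hA, hord⟩ := hF
  by_contra hcon
  push Not at hcon
  have hn' : (2:ℝ) ≤ n := by exact_mod_cast hn
  have hn0 : (0:ℝ) < n := by linarith
  obtain ⟨σ, hσ0, hσ1, r0, hr0, hgrow⟩ := F.growth ρ n hn0 h1 hord
  have hpi := Real.pi_pos
  -- the angle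
  set θ0 : ℝ := min (Real.pi / σ) (min Real.pi ((F.δ + Real.pi / n) / 2)) with hθ0
  have hθ1 : Real.pi / n < θ0 := by
    refine lt_min ?_ (lt_min ?_ (by linarith))
    · exact div_lt_div_of_pos_left hpi hσ0 hσ1
    · rw [div_lt_iff₀ hn0]
      nlinarith
  have hθ2 : θ0 ≤ Real.pi := (min_le_right _ _).trans (min_le_left _ _)
  have hθ3 : σ * θ0 ≤ Real.pi := by
    have : θ0 ≤ Real.pi / σ := min_le_left _ _
    rw [le_div_iff₀ hσ0] at this
    linarith
  have hθ4 : θ0 < F.δ := by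
    refine lt_of_le_of_lt ((min_le_right _ _).trans (min_le_right _ _)) ?_
    linarith
  -- the finite set
  set E1 : Set ℂ := {z | F.f z = 0 ∧ |z.arg| ≤ θ0} with hE1
  have hE1fin : E1.Finite := by
    have hev : ∀ᶠ z : F.zeros in cofinite, θ0 < |Complex.arg (z : ℂ)| := by
      exact eventually_lt_of_lt_liminf hθ4 (isBoundedUnder_of ⟨0, fun z => abs_nonneg _⟩)
    rw [eventually_cofinite] at hev
    refine (hev.image Subtype.val).subset ?_
    rintro z ⟨hz1, hz2⟩
    exact ⟨⟨z, hz1⟩, by simpa using hz2, rfl⟩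
  have ha0pos := F.a_pos 0
  have hc0 : 0 < F.c 0 := by
    have := F.c_e 0
    rw [Nat.sub_self, div_self (F.a_pos 0).ne'] at this
    rw [this]
    norm_num
  refine absurd (Pool.Agent.Helper758.GZ.core_n F.c F.c_nonneg hc0 F.Fc F.c_hasSum σ hσ0 r0 ?_ n (by omega) θ0 hθ1 hθ2 hθ3
    ?_) ?_
  · intro z hz
    have hz1 : 1 ≤ ‖z‖ := hr0.trans hz
    have hzne : z ≠ 0 := by
      intro h; rw [h, norm_zero] at hz1; linarith
    have e1 : F.Fc z = F.f z / ((F.a 0 : ℂ) * z ^ F.e 0) := by unfold Lac.Fc; rw [if_neg hzne]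
    rw [e1, norm_div, norm_mul, norm_pow, Complex.norm_real, Real.norm_of_nonneg ha0pos.le]
    have hpow : 1 ≤ ‖z‖ ^ F.e 0 := one_le_pow₀ hz1
    rw [div_le_iff₀ (by positivity)]
    refine (hgrow z hz).trans ?_
    have : F.a 0 * Real.exp (‖z‖ ^ σ) ≤ (F.a 0 * Real.exp (‖z‖ ^ σ)) * ‖z‖ ^ F.e 0 :=
      le_mul_of_one_le_right (by positivity) hpow
    refine this.trans (le_of_eq ?_)
    ring
  · refine hE1fin.subset ?_
    rintro ζ ⟨hζ, hlt⟩
    obtain ⟨_, hz⟩ := F.Fc_zero ζ hζ
    exact ⟨hz, hlt.le⟩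
  · have hg := F.gaps_infinite n hn hA
    have hinj : Set.InjOn (fun k => F.e k - F.e 0) {k : ℕ | F.e (k + 1) = F.e k + n} := by
      intro x _ y _ hxy
      have hx := F.e_ge x
      have hy := F.e_ge y
      simp only at hxy
      apply F.e_mono.injective
      omega
    refine ((hg.image hinj).mono ?_)
    rintro _ ⟨k, hk, rfl⟩
    have hk' : F.e (k + 1) = F.e k + n := hk
    have hge := F.e_ge k
    refine ⟨?_, ?_, ?_⟩
    · show 0 < F.c (F.e k - F.e 0)
      rw [F.c_e]; exact div_pos (F.a_pos _) (F.a_pos _)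
    · show 0 < F.c (F.e k - F.e 0 + n)
      have e1 : F.e k - F.e 0 + n = F.e (k + 1) - F.e 0 := by omega
      rw [e1, F.c_e]; exact div_pos (F.a_pos _) (F.a_pos _)
    · intro i hi0 hin
      show F.c (F.e k - F.e 0 + i) = 0
      apply F.c_zero_of
      rintro ⟨k', hk'2⟩
      have h2 : F.e k < F.e k' := by omega
      have h3 : F.e k' < F.e (k + 1) := by omega
      have h4 := F.e_mono.lt_iff_lt.1 h2
      have h5 := F.e_mono.lt_iff_lt.1 h3
      omega

/-- elementary symmetric sums -/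
def aux58E (b : ℕ → ℝ) (j : ℕ) : ℝ :=
  ∑' s : (Finset.card ⁻¹' {j} : Set (Finset ℕ)), ∏ i ∈ (s : Finset ℕ), b i

theorem aux58_sum (b : ℕ → ℝ) (hb : ∀ k, 0 < b k) (hs : Summable b) :
    Summable (fun s : Finset ℕ => ∏ i ∈ s, b i) := by
  have h : Summable (fun i => ‖b i‖) := by
    refine hs.congr (fun i => ?_)
    rw [Real.norm_of_nonneg (hb i).le]
  exact summable_finsetProd_of_summable_norm h

theorem aux58_Epos (b : ℕ → ℝ) (hb : ∀ k, 0 < b k) (hs : Summable b) (j : ℕ) :
    0 < aux58E b j := by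
  unfold aux58E
  refine Summable.tsum_pos ((aux58_sum b hb hs).subtype _)
    (fun s => Finset.prod_nonneg (fun i _ => (hb i).le)) ⟨Finset.range j, by simp⟩
    (Finset.prod_pos (fun i _ => hb i))

theorem aux58_hasSum (b : ℕ → ℝ) (hb : ∀ k, 0 < b k) (hs : Summable b) (w : ℂ) :
    HasSum (fun j => (aux58E b j : ℂ) * w ^ j) (∏' k, (1 + (b k : ℂ) * w)) := by
  have hn : Summable (fun i => ‖(b i : ℂ) * w‖) := by
    refine (hs.mul_right ‖w‖).congr (fun i => ?_)
    rw [norm_mul, Complex.norm_real, Real.norm_of_nonneg (hb i).le]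
  have h1 := summable_finsetProd_of_summable_norm hn
  have h2 := h1.hasSum.tsum_fiberwise Finset.card
  rw [← tprod_one_add h1] at h2
  have h3 : (fun j => (aux58E b j : ℂ) * w ^ j) =
      (fun c => ∑' s : (Finset.card ⁻¹' {c} : Set (Finset ℕ)),
        ∏ i ∈ (s : Finset ℕ), (b i : ℂ) * w) := by
    funext j
    unfold aux58E
    rw [Complex.ofReal_tsum, ← tsum_mul_right]
    apply tsum_congr
    rintro ⟨s, hsj⟩
    have hc : s.card = j := hsj
    simp only
    rw [Complex.ofReal_prod, Finset.prod_mul_distrib, Finset.prod_const, hc]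
  rw [h3]
  exact h2

theorem aux58_arg {n : ℕ} (hn : 2 ≤ n) {z : ℂ} {c : ℝ} (hc : 0 < c) (hz : z ^ n = -(c : ℂ)) :
    Real.pi / n ≤ |Complex.arg z| := by
  by_contra hcon
  rw [not_le] at hcon
  have hn0 : (0 : ℝ) < n := by positivity
  have hnorm : ‖z‖ ^ n = c := by
    rw [← norm_pow, hz, norm_neg, Complex.norm_real, Real.norm_of_nonneg hc.le]
  have h1 : z ^ n = (c : ℂ) * Complex.exp (((n * Complex.arg z : ℝ) : ℂ) * Complex.I) := by
    conv_lhs => rw [← Complex.norm_mul_exp_arg_mul_I z]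
    rw [mul_pow, ← Complex.exp_nat_mul, ← Complex.ofReal_pow, hnorm]
    push_cast
    ring_nf
  have h2 : Real.cos (n * Complex.arg z) = -1 := by
    have h3 := congrArg Complex.re (h1.symm.trans hz)
    rw [Complex.re_ofReal_mul, Complex.exp_ofReal_mul_I_re] at h3
    simp only [Complex.neg_re, Complex.ofReal_re] at h3
    have : c * (Real.cos (n * Complex.arg z) + 1) = 0 := by linarith
    rcases mul_eq_zero.mp this with h | h
    · linarith
    · linarith
  have h4 : |n * Complex.arg z| < Real.pi := by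
    rw [abs_mul, abs_of_pos hn0]
    calc (n : ℝ) * |Complex.arg z| < n * (Real.pi / n) := mul_lt_mul_of_pos_left hcon hn0
      _ = Real.pi := by field_simp
  have h5 := Real.cos_lt_cos_of_nonneg_of_le_pi (abs_nonneg (n * Complex.arg z)) le_rfl h4
  rw [Real.cos_abs, Real.cos_pi, h2] at h5
  linarith

/-- the root -/
def aux58z (n : ℕ) (b : ℕ → ℝ) (k : ℕ) : ℂ :=
  (((b k)⁻¹ ^ ((n : ℝ)⁻¹) : ℝ) : ℂ) * Complex.exp (((Real.pi / n : ℝ) : ℂ) * Complex.I)

theorem aux58z_pow {n : ℕ} (hn : 2 ≤ n) (b : ℕ → ℝ) (hb : ∀ k, 0 < b k) (k : ℕ) :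
    aux58z n b k ^ n = -(((b k)⁻¹ : ℝ) : ℂ) := by
  unfold aux58z
  have hn0 : (n : ℝ) ≠ 0 := by positivity
  rw [mul_pow, ← Complex.exp_nat_mul, ← Complex.ofReal_pow, ← Real.rpow_natCast,
    ← Real.rpow_mul (inv_nonneg.mpr (hb k).le), inv_mul_cancel₀ hn0, Real.rpow_one]
  have : ((n : ℂ) * (((Real.pi / n : ℝ) : ℂ) * Complex.I)) = (Real.pi : ℂ) * Complex.I := by
    push_cast
    have : (n : ℂ) ≠ 0 := by exact_mod_cast hn0
    field_simp
  rw [this, Complex.exp_pi_mul_I]
  ring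

theorem aux58z_arg {n : ℕ} (hn : 2 ≤ n) (b : ℕ → ℝ) (hb : ∀ k, 0 < b k) (k : ℕ) :
    Complex.arg (aux58z n b k) = Real.pi / n := by
  unfold aux58z
  have hn0 : (0 : ℝ) < n := by positivity
  have hn1 : (1 : ℝ) ≤ n := by exact_mod_cast (by omega : 1 ≤ n)
  have hr : 0 < (b k)⁻¹ ^ ((n : ℝ)⁻¹) := Real.rpow_pos_of_pos (inv_pos.mpr (hb k)) _
  rw [Complex.arg_real_mul _ hr, Complex.arg_exp_mul_I]
  rw [toIocMod_eq_self]
  constructor
  · have : 0 < Real.pi / n := by positivity
    linarith [Real.pi_pos]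
  · have : Real.pi / n ≤ Real.pi := div_le_self Real.pi_pos.le hn1
    linarith

/-- the function `∏ (1 + b_k z^n)` -/
theorem example_function (n : ℕ) (hn : 2 ≤ n) (b : ℕ → ℝ) (hb : ∀ k, 0 < b k) (hs : Summable b)
    (hinj : Function.Injective b) :
    ∃ F : Lac, (∀ z : ℂ, F.f z = ∏' k, (1 + (b k : ℂ) * z ^ n)) ∧ F.zeros.Infinite ∧ F.A = n ∧
      F.δ = Real.pi / n ∧ ∀ r : ℝ, 0 ≤ r → F.M r = ∏' k, (1 + b k * r ^ n) := by
  have hn0 : 0 < n := by omega
  let F : Lac :=
    { e := fun k => n * k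
      a := aux58E b
      e_mono := by
        intro i j hij
        exact Nat.mul_lt_mul_of_pos_left hij hn0
      a_pos := aux58_Epos b hb hs
      entire := by
        intro z
        have := (aux58_hasSum b hb hs (z ^ n)).summable
        simpa only [← pow_mul] using this }
  have hF : ∀ z : ℂ, F.f z = ∏' k, (1 + (b k : ℂ) * z ^ n) := by
    intro z
    have := (aux58_hasSum b hb hs (z ^ n)).tsum_eq
    rw [← this]
    unfold Lac.f
    simp only [← pow_mul]
    rfl
  have hsn : ∀ z : ℂ, Summable (fun i => ‖(b i : ℂ) * z ^ n‖) := by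
    intro z
    refine (hs.mul_right ‖z ^ n‖).congr (fun i => ?_)
    rw [norm_mul, Complex.norm_real, Real.norm_of_nonneg (hb i).le]
  have hzero : ∀ z : ℂ, F.f z = 0 ↔ ∃ k, z ^ n = -(((b k)⁻¹ : ℝ) : ℂ) := by
    intro z
    rw [hF z]
    constructor
    · intro h
      by_contra hcon
      push Not at hcon
      refine tprod_one_add_ne_zero_of_summable (f := fun i => (b i : ℂ) * z ^ n) ?_ (hsn z) h
      intro k hk
      apply hcon k
      have hbk : (b k : ℂ) ≠ 0 := by exact_mod_cast (hb k).ne'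
      have : (b k : ℂ) * z ^ n = -1 := by linear_combination hk
      rw [Complex.ofReal_inv]
      field_simp
      linear_combination this
    · rintro ⟨k, hk⟩
      apply tprod_of_exists_eq_zero
      refine ⟨k, ?_⟩
      have hbk : (b k : ℂ) ≠ 0 := by exact_mod_cast (hb k).ne'
      rw [hk, Complex.ofReal_inv]
      field_simp
      ring
  have hmem : ∀ k, aux58z n b k ∈ F.zeros := fun k =>
    (hzero _).mpr ⟨k, aux58z_pow hn b hb k⟩
  have hzinj : Function.Injective (aux58z n b) := by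
    intro i j hij
    have h1 := aux58z_pow hn b hb i
    have h2 := aux58z_pow hn b hb j
    rw [hij, h2] at h1
    apply hinj
    have h3 : ((b j)⁻¹ : ℝ) = (b i)⁻¹ := by exact_mod_cast neg_injective h1
    exact (inv_injective h3).symm
  have hge : ∀ z : F.zeros, Real.pi / n ≤ |Complex.arg (z : ℂ)| := by
    rintro ⟨z, hz⟩
    obtain ⟨k, hk⟩ := (hzero z).mp hz
    exact aux58_arg hn (inv_pos.mpr (hb k)) hk
  have hfreq : ∃ᶠ z : F.zeros in cofinite, |Complex.arg (z : ℂ)| ≤ Real.pi / n := by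
    rw [frequently_cofinite_iff_infinite]
    refine Set.infinite_of_injective_forall_mem (f := fun k : ℕ => (⟨aux58z n b k, hmem k⟩ : F.zeros))
      ?_ ?_
    · intro i j hij
      exact hzinj (congrArg Subtype.val hij)
    · intro k
      show |Complex.arg (aux58z n b k)| ≤ Real.pi / n
      rw [aux58z_arg hn b hb k, abs_of_pos]
      positivity
  refine ⟨F, hF, Set.infinite_of_injective_forall_mem hzinj hmem, ?_, ?_, ?_⟩
  · unfold Lac.A
    have : (fun k => ((F.e (k + 1) - F.e k : ℕ) : ℕ∞)) = fun _ => (n : ℕ∞) := by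
      funext k
      have : F.e (k + 1) - F.e k = n := by
        show n * (k + 1) - n * k = n
        rw [Nat.mul_succ]; omega
      rw [this]
    rw [this, Filter.limsup_const]
  · unfold Lac.δ
    apply le_antisymm
    · exact liminf_le_of_frequently_le hfreq ⟨0, by
        rw [Filter.eventually_map]
        exact Filter.Eventually.of_forall (fun z => abs_nonneg _)⟩
    · refine le_liminf_of_le ?_ (Filter.Eventually.of_forall hge)
      refine ⟨Real.pi / n, fun a ha => ?_⟩
      rw [Filter.eventually_map] at ha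
      obtain ⟨z, hz1, hz2⟩ := (hfreq.and_eventually ha).exists
      exact le_trans hz2 hz1
  · intro r hr
    have hnonneg : ∀ i, 0 ≤ b i * r ^ n := fun i => mul_nonneg (hb i).le (pow_nonneg hr n)
    have hval : ‖F.f (r : ℂ)‖ = ∏' k, (1 + b k * r ^ n) := by
      rw [hF, (multipliable_one_add_of_summable (hsn (r : ℂ))).norm_tprod]
      apply tprod_congr
      intro k
      have : (1 : ℂ) + (b k : ℂ) * (r : ℂ) ^ n = ((1 + b k * r ^ n : ℝ) : ℂ) := by push_cast; ring
      rw [this, Complex.norm_real, Real.norm_of_nonneg]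
      linarith [hnonneg k]
    have hnorm : ∀ (z : ℂ) (k : ℕ), ‖(F.a k : ℂ) * z ^ F.e k‖ = F.a k * ‖z‖ ^ F.e k := by
      intro z k
      rw [norm_mul, norm_pow, Complex.norm_real, Real.norm_of_nonneg (F.a_pos k).le]
    have hup : ∀ z : ℂ, ‖z‖ = r → ‖F.f z‖ ≤ ‖F.f (r : ℂ)‖ := by
      intro z hz
      have h1 : ‖F.f z‖ ≤ ∑' k, F.a k * r ^ F.e k := by
        unfold Lac.f
        have hsm : Summable (fun k => ‖(F.a k : ℂ) * z ^ F.e k‖) := (F.entire z).norm
        refine (norm_tsum_le_tsum_norm hsm).trans (le_of_eq ?_)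
        apply tsum_congr
        intro k
        rw [hnorm, hz]
      have h2 : F.f (r : ℂ) = ((∑' k, F.a k * r ^ F.e k : ℝ) : ℂ) := by
        unfold Lac.f
        rw [Complex.ofReal_tsum]
        apply tsum_congr
        intro k
        push_cast
        ring
      rw [h2, Complex.norm_real, Real.norm_of_nonneg]
      · exact h1
      · exact tsum_nonneg (fun k => mul_nonneg (F.a_pos k).le (pow_nonneg hr _))
    rw [← hval]
    unfold Lac.M
    refine IsGreatest.csSup_eq ⟨⟨(r : ℂ), ?_, rfl⟩, ?_⟩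
    · rw [mem_sphere_zero_iff_norm, Complex.norm_real, Real.norm_of_nonneg hr]
    · rintro x ⟨z, hz, rfl⟩
      rw [mem_sphere_zero_iff_norm] at hz
      exact hup z hz

lemma key_tendsto (F : ℝ → ℝ) (ρ : ℝ) (n : ℝ) (hρn : ρ < n)
    (hup : ∀ s, ρ < s → s ≤ n → ∃ C : ℝ, 0 < C ∧ ∀ᶠ r : ℝ in atTop, F r ≤ C * r ^ s)
    (hlow : ∃ c : ℝ, 0 < c ∧ ∀ᶠ r : ℝ in atTop, c * r ^ ρ ≤ F r) :
    Tendsto (fun r : ℝ => Real.log (F r) / Real.log r) atTop (𝓝 ρ) := by
  have hlog : Tendsto Real.log atTop atTop := Real.tendsto_log_atTop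
  obtain ⟨c, hc, hl⟩ := hlow
  rw [tendsto_order]
  constructor
  · intro a ha
    have h1 : ∀ᶠ r : ℝ in atTop, -Real.log c < (ρ - a) * Real.log r :=
      (hlog.const_mul_atTop (sub_pos.mpr ha)).eventually (eventually_gt_atTop _)
    filter_upwards [h1, hl, eventually_gt_atTop (1 : ℝ)] with r h1 h2 h3
    have hr0 : 0 < r := by linarith
    have hlr : 0 < Real.log r := Real.log_pos h3
    rw [lt_div_iff₀ hlr]
    have h4 : Real.log (c * r ^ ρ) ≤ Real.log (F r) :=
      Real.log_le_log (by positivity) h2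
    rw [Real.log_mul hc.ne' (by positivity), Real.log_rpow hr0] at h4
    nlinarith
  · intro b hb
    obtain ⟨s, hs1, hs2, hs3⟩ : ∃ s, ρ < s ∧ s ≤ n ∧ s < b := by
      refine ⟨min ((ρ + b) / 2) n, lt_min (by linarith) hρn, min_le_right _ _, ?_⟩
      exact lt_of_le_of_lt (min_le_left _ _) (by linarith)
    obtain ⟨C, hC, hu⟩ := hup s hs1 hs2
    have h1 : ∀ᶠ r : ℝ in atTop, Real.log C < (b - s) * Real.log r :=
      (hlog.const_mul_atTop (sub_pos.mpr hs3)).eventually (eventually_gt_atTop _)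
    filter_upwards [h1, hl, hu, eventually_gt_atTop (1 : ℝ)] with r h1 h2 hu h3
    have hr0 : 0 < r := by linarith
    have hlr : 0 < Real.log r := Real.log_pos h3
    rw [div_lt_iff₀ hlr]
    have hF : 0 < F r := lt_of_lt_of_le (by positivity) h2
    have h4 : Real.log (F r) ≤ Real.log (C * r ^ s) := Real.log_le_log hF hu
    rw [Real.log_mul hC.ne' (by positivity), Real.log_rpow hr0] at h4
    nlinarith

lemma log_prod (a : ℕ → ℝ) (ha : ∀ k, 0 ≤ a k) (hs : Summable a) (y : ℝ) (hy : 0 ≤ y) :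
    Summable (fun k => Real.log (1 + a k * y)) ∧
    Real.log (∏' k, (1 + a k * y)) = ∑' k, Real.log (1 + a k * y) := by
  have h1 : Summable (fun k => a k * y) := hs.mul_right y
  have h2 : Summable (fun k => Real.log (1 + a k * y)) := by
    refine Summable.of_nonneg_of_le (fun k => ?_) (fun k => ?_) h1
    · apply Real.log_nonneg
      have := mul_nonneg (ha k) hy
      linarith
    · have := mul_nonneg (ha k) hy
      have := Real.log_le_sub_one_of_pos (show 0 < 1 + a k * y by linarith)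
      linarith
  refine ⟨h2, ?_⟩
  rw [← Real.rexp_tsum_eq_tprod (f := fun k => 1 + a k * y) (fun k => ?_) h2, Real.log_exp]
  have := mul_nonneg (ha k) hy
  show 0 < 1 + a k * y
  linarith

lemma log_one_add_le (y t : ℝ) (hy : 0 ≤ y) (ht0 : 0 < t) (ht1 : t ≤ 1) :
    Real.log (1 + y) ≤ t⁻¹ * y ^ t := by
  have h1 : (1 + y) ^ t ≤ 1 + y ^ t := by
    have := Real.add_rpow_le_rpow_add (a := 1) (b := y) (p := t⁻¹)
    have h2 := Real.rpow_add_le_add_rpow (a := (1:ℝ)) (b := y) (p := t) (by norm_num) hy ht0.le ht1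
    rwa [Real.one_rpow] at h2
  have h2 : 0 < (1 + y) ^ t := by positivity
  have h3 : Real.log ((1 + y) ^ t) ≤ (1 + y) ^ t - 1 := Real.log_le_sub_one_of_pos h2
  rw [Real.log_rpow (by positivity)] at h3
  have h4 : t * Real.log (1 + y) ≤ y ^ t := by linarith
  rw [← div_eq_inv_mul, le_div_iff₀ ht0]
  linarith

lemma upper_ord (n : ℕ) (hn : 2 ≤ n) (a : ℕ → ℝ) (ha : ∀ k, 0 ≤ a k) (hs : Summable a)
    (s : ℝ) (hs0 : 0 < s) (hsn : s ≤ n) (hsum : Summable (fun k => (a k) ^ (s / n))) :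
    ∃ C : ℝ, 0 < C ∧ ∀ᶠ r : ℝ in atTop, Real.log (∏' k, (1 + a k * r ^ n)) ≤ C * r ^ s := by
  have hn0 : (0 : ℝ) < n := by
    have : (2 : ℝ) ≤ n := by exact_mod_cast hn
    linarith
  refine ⟨(s / n)⁻¹ * (∑' k, (a k) ^ (s / n)) + 1, ?_, ?_⟩
  · have : 0 ≤ ∑' k, (a k) ^ (s / n) := tsum_nonneg (fun k => Real.rpow_nonneg (ha k) _)
    positivity
  filter_upwards [eventually_gt_atTop (0 : ℝ)] with r hr
  have hy : 0 ≤ r ^ n := by positivity
  obtain ⟨h1, h2⟩ := log_prod a ha hs (r ^ n) hy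
  rw [h2]
  have h3 : ∀ k, Real.log (1 + a k * r ^ n) ≤ ((s / n)⁻¹ * r ^ s) * (a k) ^ (s / n) := by
    intro k
    have h4 := log_one_add_le (a k * r ^ n) (s / n) (mul_nonneg (ha k) hy) (by positivity)
      (by rw [div_le_one hn0]; exact hsn)
    refine h4.trans (le_of_eq ?_)
    rw [Real.mul_rpow (ha k) hy]
    have h5 : (r ^ n) ^ (s / n) = r ^ s := by
      rw [← Real.rpow_natCast, ← Real.rpow_mul hr.le]
      congr 1
      field_simp
    rw [h5]
    ring
  have h4 := Summable.tsum_le_tsum h3 h1 (hsum.mul_left _)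
  rw [tsum_mul_left] at h4
  have h5 : 0 < r ^ s := by positivity
  nlinarith

theorem order_pos (n : ℕ) (hn : 2 ≤ n) (ρ : ℝ) (h0 : 0 < ρ) (h1 : ρ < n) :
    limsup (fun r : ℝ => ((Real.log (Real.log (∏' k : ℕ, (1 + ((k : ℝ) + 1) ^ (-((n : ℝ) / ρ)) * r ^ n)))
      / Real.log r : ℝ) : EReal)) atTop = (ρ : EReal) := by
  have hn2 : (2 : ℝ) ≤ n := by exact_mod_cast hn
  set a : ℕ → ℝ := fun k => ((k : ℝ) + 1) ^ (-((n : ℝ) / ρ)) with ha_def
  have ha : ∀ k, 0 ≤ a k := fun k => by
    simp only [ha_def]; positivity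
  have hsumgen : ∀ p : ℝ, 1 < p → Summable (fun k : ℕ => ((k : ℝ) + 1) ^ (-p)) := by
    intro p hp
    have h2 : Summable (fun k : ℕ => ((k : ℝ)) ^ (-p)) := Real.summable_nat_rpow.mpr (by linarith)
    have h3 := (summable_nat_add_iff 1).mpr h2
    refine h3.congr (fun k => ?_)
    push_cast
    rfl
  have hs : Summable a := by
    apply hsumgen
    rw [lt_div_iff₀ h0]
    linarith
  have key : Tendsto (fun r : ℝ => Real.log (Real.log (∏' k : ℕ, (1 + a k * r ^ n))) / Real.log r)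
      atTop (𝓝 ρ) := by
    apply key_tendsto (fun r => Real.log (∏' k : ℕ, (1 + a k * r ^ n))) ρ n (by linarith)
    · intro s hs1 hs2
      apply upper_ord n hn a ha hs s (by linarith) hs2
      have h5 : 1 < s / ρ := by
        rw [lt_div_iff₀ h0]; linarith
      refine (hsumgen (s / ρ) h5).congr (fun k => ?_)
      simp only [ha_def]
      rw [← Real.rpow_mul (by positivity)]
      congr 1
      field_simp
    · refine ⟨1 / 4, by norm_num, ?_⟩
      have hbig : ∀ᶠ r : ℝ in atTop, (4 : ℝ) < r ^ ρ :=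
        (tendsto_rpow_atTop h0).eventually (eventually_gt_atTop _)
      filter_upwards [hbig, eventually_gt_atTop (1 : ℝ)] with r hb hr
      have hr0 : 0 < r := by linarith
      have hy : 0 ≤ r ^ n := by positivity
      obtain ⟨g1, g2⟩ := log_prod a ha hs (r ^ n) hy
      rw [g2]
      have g3 : ∑ k ∈ Finset.range (Nat.floor (r ^ ρ)), Real.log (1 + a k * r ^ n) ≤
          ∑' k, Real.log (1 + a k * r ^ n) := by
        apply Summable.sum_le_tsum _ _ g1
        intro k _
        apply Real.log_nonneg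
        have := mul_nonneg (ha k) hy
        linarith
      have g4 : ∀ k ∈ Finset.range (Nat.floor (r ^ ρ)), (1 / 2 : ℝ) ≤ Real.log (1 + a k * r ^ n) := by
        intro k hk
        rw [Finset.mem_range] at hk
        have hk1 : ((k + 1 : ℕ) : ℝ) ≤ r ^ ρ :=
          (Nat.le_floor_iff (by positivity)).mp hk
        push_cast at hk1
        have hk0 : (0 : ℝ) < (k : ℝ) + 1 := by positivity
        have h6 : ((k : ℝ) + 1) ^ ((n : ℝ) / ρ) ≤ r ^ n := by
          calc ((k : ℝ) + 1) ^ ((n : ℝ) / ρ) ≤ (r ^ ρ) ^ ((n : ℝ) / ρ) :=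
                Real.rpow_le_rpow hk0.le hk1 (by positivity)
            _ = r ^ n := by
                rw [← Real.rpow_mul hr0.le, ← Real.rpow_natCast]
                congr 1
                field_simp
        have h7 : 1 ≤ a k * r ^ n := by
          simp only [ha_def]
          rw [Real.rpow_neg hk0.le, ← div_eq_inv_mul, le_div_iff₀ (by positivity)]
          linarith
        have h8 : Real.log 2 ≤ Real.log (1 + a k * r ^ n) :=
          Real.log_le_log (by norm_num) (by linarith)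
        have := Real.log_two_gt_d9
        linarith
      have g5 := Finset.sum_le_sum g4
      rw [Finset.sum_const, Finset.card_range, nsmul_eq_mul] at g5
      have g6 : r ^ ρ < Nat.floor (r ^ ρ) + 1 := Nat.lt_floor_add_one _
      linarith
  have h2 : Tendsto (fun r : ℝ => ((Real.log (Real.log (∏' k : ℕ, (1 + a k * r ^ n))) / Real.log r : ℝ)
      : EReal)) atTop (𝓝 (ρ : EReal)) :=
    (continuous_coe_real_ereal.tendsto ρ).comp key
  exact h2.limsup_eq

theorem order_zero (n : ℕ) (hn : 2 ≤ n) :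
    limsup (fun r : ℝ => ((Real.log (Real.log (∏' k : ℕ, (1 + Real.exp (-(k : ℝ)) * r ^ n)))
      / Real.log r : ℝ) : EReal)) atTop = 0 := by
  have hn2 : (2 : ℝ) ≤ n := by exact_mod_cast hn
  set a : ℕ → ℝ := fun k => Real.exp (-(k : ℝ)) with ha_def
  have ha : ∀ k, 0 ≤ a k := fun k => by
    simp only [ha_def]; positivity
  have hsumgen : ∀ p : ℝ, 0 < p → Summable (fun k : ℕ => (a k) ^ p) := by
    intro p hp
    have h3 : Summable (fun k : ℕ => Real.exp ((k : ℝ) * (-p))) :=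
      Real.summable_exp_nat_mul_iff.mpr (by linarith)
    refine h3.congr (fun k => ?_)
    simp only [ha_def]
    rw [← Real.exp_mul]
    congr 1
    ring
  have hs : Summable a := by
    have := hsumgen 1 (by norm_num)
    simpa using this
  have key : Tendsto (fun r : ℝ => Real.log (Real.log (∏' k : ℕ, (1 + a k * r ^ n))) / Real.log r)
      atTop (𝓝 0) := by
    apply key_tendsto (fun r => Real.log (∏' k : ℕ, (1 + a k * r ^ n))) 0 n (by linarith)
    · intro s hs1 hs2
      apply upper_ord n hn a ha hs s (by linarith) hs2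
      exact hsumgen _ (by positivity)
    · refine ⟨1 / 2, by norm_num, ?_⟩
      filter_upwards [eventually_gt_atTop (1 : ℝ)] with r hr
      have hr0 : 0 < r := by linarith
      have hy : 0 ≤ r ^ n := by positivity
      obtain ⟨g1, g2⟩ := log_prod a ha hs (r ^ n) hy
      rw [g2]
      have g3 : ∑ k ∈ Finset.range 1, Real.log (1 + a k * r ^ n) ≤
          ∑' k, Real.log (1 + a k * r ^ n) := by
        apply Summable.sum_le_tsum _ _ g1
        intro k _
        apply Real.log_nonneg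
        have := mul_nonneg (ha k) hy
        linarith
      rw [Finset.sum_range_one] at g3
      have h7 : 1 ≤ a 0 * r ^ n := by
        simp only [ha_def]
        have : 1 ≤ r ^ n := one_le_pow₀ hr.le
        simpa using this
      have h8 : Real.log 2 ≤ Real.log (1 + a 0 * r ^ n) :=
        Real.log_le_log (by norm_num) (by linarith)
      have := Real.log_two_gt_d9
      rw [Real.rpow_zero]
      linarith
  have h2 : Tendsto (fun r : ℝ => ((Real.log (Real.log (∏' k : ℕ, (1 + a k * r ^ n))) / Real.log r : ℝ)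
      : EReal)) atTop (𝓝 ((0 : ℝ) : EReal)) :=
    (continuous_coe_real_ereal.tendsto 0).comp key
  exact h2.limsup_eq


/-- `g_ρ(n)`: the supremum of `δ(f)` over the class `G_ρ(n)` -/
def g (n : ℕ) (ρ : EReal) : ℝ := sSup (Lac.δ '' G n ρ)

theorem exists_example (n : ℕ) (hn : 2 ≤ n) (ρ : ℝ) (h0 : 0 ≤ ρ) (h1 : ρ < n) :
    ∃ F : Lac, F ∈ G n (ρ : EReal) ∧ F.δ = Real.pi / n := by
  rcases h0.eq_or_lt with h | h
  · have hs : Summable (fun k : ℕ => Real.exp (-(k : ℝ))) := by
      have h3 : Summable (fun k : ℕ => Real.exp ((k : ℝ) * (-1))) :=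
        Real.summable_exp_nat_mul_iff.mpr (by norm_num)
      refine h3.congr (fun k => ?_)
      rw [mul_neg_one]
    obtain ⟨F, -, hinf, hA, hδ, hM⟩ := example_function n hn (fun k => Real.exp (-(k : ℝ)))
      (fun k => Real.exp_pos _) hs (by
        intro i j hij
        have : (-(i : ℝ)) = -(j : ℝ) := Real.exp_injective hij
        exact_mod_cast neg_injective this)
    refine ⟨F, ⟨hinf, hA, ?_⟩, hδ⟩
    have h2 := order_zero n hn
    rw [← h]
    unfold Lac.order
    rw [← EReal.coe_zero] at h2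
    rw [← h2]
    refine limsup_congr ?_
    filter_upwards [eventually_ge_atTop (0 : ℝ)] with r hr
    rw [hM r hr]
  · have hp : 1 < (n : ℝ) / ρ := by
      rw [lt_div_iff₀ h]
      linarith
    have hs : Summable (fun k : ℕ => ((k : ℝ) + 1) ^ (-((n : ℝ) / ρ))) := by
      have h2 : Summable (fun k : ℕ => ((k : ℝ)) ^ (-((n : ℝ) / ρ))) :=
        Real.summable_nat_rpow.mpr (by linarith)
      have h3 := (summable_nat_add_iff 1).mpr h2
      refine h3.congr (fun k => ?_)
      push_cast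
      rfl
    obtain ⟨F, -, hinf, hA, hδ, hM⟩ := example_function n hn
      (fun k => ((k : ℝ) + 1) ^ (-((n : ℝ) / ρ)))
      (fun k => by positivity) hs (by
        intro i j hij
        have h5 : StrictAntiOn (fun x : ℝ => x ^ (-((n : ℝ) / ρ))) (Set.Ioi 0) :=
          Real.strictAntiOn_rpow_Ioi_of_exponent_neg (by linarith)
        have h6 := h5.injOn (show ((i : ℝ) + 1) ∈ Set.Ioi 0 by simp; positivity)
          (show ((j : ℝ) + 1) ∈ Set.Ioi 0 by simp; positivity) hij
        have h7 : (i : ℝ) = j := by linarith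
        exact_mod_cast h7)
    refine ⟨F, ⟨hinf, hA, ?_⟩, hδ⟩
    have h2 := order_pos n hn ρ h h1
    unfold Lac.order
    rw [← h2]
    refine limsup_congr ?_
    filter_upwards [eventually_ge_atTop (0 : ℝ)] with r hr
    rw [hM r hr]

theorem result (n : ℕ) (hn : 2 ≤ n) (ρ : ℝ) (h0 : 0 ≤ ρ) (h1 : ρ < n) :
    IsGreatest (Lac.δ '' G n (ρ : EReal)) (Real.pi / n) ∧ g n (ρ : EReal) = Real.pi / n := by
  have hgr : IsGreatest (Lac.δ '' G n (ρ : EReal)) (Real.pi / n) := by
    constructor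
    · obtain ⟨F, hF, hδ⟩ := exists_example n hn ρ h0 h1
      exact ⟨F, hF, hδ⟩
    · rintro _ ⟨F, hF, rfl⟩
      exact upper_bound n hn ρ h1 F hF
  exact ⟨hgr, hgr.csSup_eq⟩

end

end Pool.Agent.Results.MP_c20521_an.BelowN
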