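import Mathlib
import Pool.Agent.C20521.Def
import Pool.Agent.C20521.Red
import Pool.Agent.C20521.Ex

set_option autoImplicit false

/-!
`g_ρ(n) = π / n` for every integer `n ≥ 2` and every order `0 ≤ ρ < 1`, and the supremum is attained.

The definitions (in `Pool/Agent/C20521/Def.lean`):
* `Lac`: power series `∑ a_k z^(e_k)`, `e` strictly increasing, `a_k > 0`, convergent on all of `ℂ`;
* `Lac.f`, `Lac.zeros`, `Lac.A` (limsup of the gaps), `Lac.δ` (liminf of `|arg|` over the zeros),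
  `Lac.M` (maximum modulus), `Lac.order`;
* `G n ρ`: the class `G_ρ(n)`.
-/

noncomputable section

namespace Pool.Agent.Results.MP_c20521_an.OrderBelowOne

open LacAngle

/-- `g_ρ(n)`, the supremum of `δ(f)` over `f ∈ G_ρ(n)` -/
def g (n : ℕ) (ρ : EReal) : ℝ := sSup (Lac.δ '' G n ρ)

theorem exists_example (n : ℕ) (hn : 2 ≤ n) (ρ : ℝ) (h0 : 0 ≤ ρ) (h1 : ρ < 1) :
    ∃ F ∈ G n (ρ : EReal), F.δ = Real.pi / n := by
  have hn0 : (0 : ℝ) < n := by exact_mod_cast (by omega : 0 < n)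
  have hn2 : (2 : ℝ) ≤ n := by exact_mod_cast hn
  rcases h0.lt_or_eq with hρ | hρ
  · have hexp : 1 < (n : ℝ) / ρ := by
      rw [lt_div_iff₀ hρ]; linarith
    have hs : Summable (fun k : ℕ => ((k : ℝ) + 1) ^ (-((n : ℝ) / ρ))) := by
      have h2 := (Real.summable_one_div_nat_rpow.mpr hexp)
      have h3 := (summable_nat_add_iff 1).mpr h2
      refine h3.congr fun k => ?_
      rw [Real.rpow_neg (by positivity), one_div]
      push_cast
      rfl
    have hinj : Function.Injective (fun k : ℕ => ((k : ℝ) + 1) ^ (-((n : ℝ) / ρ))) := by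
      intro a b hab
      have h4 : (a : ℝ) + 1 = b + 1 :=
        (Real.rpow_left_injOn (x := -((n : ℝ) / ρ)) (by linarith : -((n : ℝ) / ρ) ≠ 0))
          (by simp only [Set.mem_ofPred_eq]; positivity) (by simp only [Set.mem_ofPred_eq]; positivity) hab
      exact_mod_cast add_right_cancel h4
    obtain ⟨F, _, hz, hA, hδ, hM⟩ := example_function n hn _ (fun k => by positivity) hs hinj
    refine ⟨F, ⟨hz, hA, ?_⟩, hδ⟩
    rw [← Ord.order_pos n hn ρ hρ h1]
    unfold Lac.order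
    refine Filter.limsup_congr ?_
    filter_upwards [Filter.eventually_ge_atTop (0 : ℝ)] with r hr
    rw [hM r hr]
  · have hs : Summable (fun k : ℕ => Real.exp (-(k : ℝ))) := Real.summable_exp_neg_nat
    have hinj : Function.Injective (fun k : ℕ => Real.exp (-(k : ℝ))) := by
      intro a b hab
      have h4 : -(a : ℝ) = -b := Real.exp_injective hab
      exact_mod_cast neg_injective h4
    obtain ⟨F, _, hz, hA, hδ, hM⟩ := example_function n hn _ (fun k => Real.exp_pos _) hs hinj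
    refine ⟨F, ⟨hz, hA, ?_⟩, hδ⟩
    have h5 := Ord.order_zero n hn
    rw [← hρ]
    have h6 : ((0 : ℝ) : EReal) = 0 := rfl
    rw [h6, ← h5]
    unfold Lac.order
    refine Filter.limsup_congr ?_
    filter_upwards [Filter.eventually_ge_atTop (0 : ℝ)] with r hr
    rw [hM r hr]

/-- For every integer `n ≥ 2` and every `0 ≤ ρ < 1` one has `g_ρ(n) = π / n`; the supremum is attained. -/
theorem result (n : ℕ) (hn : 2 ≤ n) (ρ : ℝ) (h0 : 0 ≤ ρ) (h1 : ρ < 1) :
    g n (ρ : EReal) = Real.pi / n ∧ (∀ F ∈ G n (ρ : EReal), F.δ ≤ Real.pi / n) ∧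
      ∃ F ∈ G n (ρ : EReal), F.δ = Real.pi / n := by
  have hup : ∀ F ∈ G n (ρ : EReal), F.δ ≤ Real.pi / n := fun F hF => upper n hn ρ h0 h1 F hF
  obtain ⟨F, hF, hδ⟩ := exists_example n hn ρ h0 h1
  refine ⟨?_, hup, F, hF, hδ⟩
  have hgreat : IsGreatest (Lac.δ '' G n (ρ : EReal)) (Real.pi / n) := by
    refine ⟨⟨F, hF, hδ⟩, ?_⟩
    rintro _ ⟨F', hF', rfl⟩
    exact hup F' hF'
  exact hgreat.csSup_eq

end Pool.Agent.Results.MP_c20521_an.OrderBelowOne
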